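import Pool.Agent.Lib.MP_5364dc_lc.Fac2
import Pool.Agent.Lib.MP_5364dc_lc.Maxl

namespace Pool.Agent.Results.MP_5364dc_lc.ThreeWordMaximal

/-- `X` is a code: every word has at most one factorization into words of `X`. -/
def IsCode {A : Type} (X : Set (List A)) : Prop :=
  ∀ xs ys : List (List A), (∀ x ∈ xs, x ∈ X) → (∀ y ∈ ys, y ∈ X) →
    xs.flatten = ys.flatten → xs = ys

/-- `Y` is complete: every word is a factor of a product of words of `Y`. -/
def IsComplete {A : Type} (Y : Set (List A)) : Prop :=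
  ∀ w : List A, ∃ (u v : List A) (zs : List (List A)),
    (∀ z ∈ zs, z ∈ Y) ∧ zs.flatten = u ++ w ++ v

/-- Every three-word code over a finite alphabet is contained in a finite code `Y` that is
complete and maximal and has a positive factorization: there are finite sets `S`, `P` such that
every word is in exactly one way `s y₁ ⋯ yₖ p` with `s ∈ S`, `yᵢ ∈ Y`, `p ∈ P`. -/
theorem result (A : Type) [Finite A] (X : Set (List A)) (h3 : X.ncard = 3) (hX : IsCode X) :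
    ∃ Y : Set (List A), Y.Finite ∧ X ⊆ Y ∧ IsCode Y ∧ IsComplete Y ∧
      (∀ Z : Set (List A), Y ⊆ Z → IsCode Z → Z = Y) ∧
      ∃ S P : Set (List A), S.Finite ∧ P.Finite ∧ ∀ w : List A,
        ∃! t : List A × List (List A) × List A,
          t.1 ∈ S ∧ (∀ y ∈ t.2.1, y ∈ Y) ∧ t.2.2 ∈ P ∧ w = t.1 ++ t.2.1.flatten ++ t.2.2 := by
  obtain ⟨x, y, z, n1, n2, n3, rfl⟩ := Set.ncard_eq_three.1 h3
  obtain ⟨Y, S, P, h1, hS, hP, h2, h4, h5⟩ :=
    Pool.Agent.Lib.MP_5364dc_lc.three_words' x y z ⟨hX, n1, n2, n3⟩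
  have : Nonempty A := by
    cases x with
    | nil =>
      cases y with
      | nil => exact absurd rfl n1
      | cons a _ => exact ⟨a⟩
    | cons a _ => exact ⟨a⟩
  refine ⟨Y, h1, h2, h4, h5.compl hS hP, fun Z hYZ hZ =>
    Pool.Agent.Lib.MP_5364dc_lc.Mx.maximal_of_complete h1 (h5.compl hS hP) hYZ hZ,
    S, P, hS, hP, fun w => ?_⟩
  obtain ⟨s, hs, p, hp, _, ⟨ys, hys, rfl⟩, rfl⟩ := h5.1 w
  refine ⟨(s, ys, p), ⟨hs, hys, hp, rfl⟩, ?_⟩
  rintro ⟨s', ys', p'⟩ ⟨hs', hys', hp', e⟩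
  obtain ⟨rfl, rfl⟩ := h5.2 s hs s' hs' p hp p' hp' _ _ ⟨ys, hys, rfl⟩ ⟨ys', hys', rfl⟩ e
  rw [h4 ys ys' hys hys' (List.append_cancel_left (List.append_cancel_right e))]

end Pool.Agent.Results.MP_5364dc_lc.ThreeWordMaximal
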